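import Mathlib
import Pool.Agent.R107.TruncTheta

namespace Pool.Agent.Results.MP_418314_co.Nonneg

open PowerSeries PowerSeries.WithPiTopology
open Pool.Agent.R107.TruncTheta

/-- The generalized pentagonal numbers `G_n = ⌈n/2⌉ ⌈(3n+1)/2⌉ / 2` in increasing order:
`0, 1, 2, 5, 7, 12, 15, 22, 26, ...`. -/
def G (n : ℕ) : ℕ := ((n + 1) / 2) * ((3 * n + 2) / 2) / 2

/-- The truncated theta series `∑_{j ≥ 0} (-1)^{T_j} q^{G_{j+2k}}` with `T_j = j(j+1)/2`: its
coefficient of `q^N` is the sum of `(-1)^{T_j}` over the `j` (necessarily at most `N`) with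
`G_{j+2k} = N`. -/
noncomputable def theta (k : ℕ) : ℤ⟦X⟧ :=
  PowerSeries.mk fun N => ∑ j ∈ Finset.range (N + 1),
    if G (j + 2 * k) = N then (-1) ^ (j * (j + 1) / 2) else 0

/-- `F_k(q) = ∏_{i ≥ 1} (1 + q^i) · ∑_{j ≥ 0} (-1)^{T_j} q^{G_{j+2k}}`. -/
noncomputable def F (k : ℕ) : ℤ⟦X⟧ := (∏' i : ℕ, (1 + X ^ (i + 1))) * theta k

lemma two_G_even (J : ℕ) : 2 * G (2 * J) = J * (3 * J + 1) := by
  unfold G
  rw [show (2 * J + 1) / 2 = J by omega, show (3 * (2 * J) + 2) / 2 = 3 * J + 1 by omega]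
  have h : 2 ∣ J * (3 * J + 1) := by
    rcases Nat.even_or_odd J with ⟨r, hr⟩ | ⟨r, hr⟩
    · exact Dvd.dvd.mul_right ⟨r, by omega⟩ _
    · exact Dvd.dvd.mul_left ⟨3 * r + 2, by omega⟩ _
  exact Nat.mul_div_cancel' h

lemma two_G_odd (J : ℕ) : 2 * G (2 * J + 1) = (J + 1) * (3 * J + 2) := by
  unfold G
  rw [show (2 * J + 1 + 1) / 2 = J + 1 by omega,
    show (3 * (2 * J + 1) + 2) / 2 = 3 * J + 2 by omega]
  have h : 2 ∣ (J + 1) * (3 * J + 2) := by
    rcases Nat.even_or_odd J with ⟨r, hr⟩ | ⟨r, hr⟩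
    · exact Dvd.dvd.mul_left ⟨3 * r + 1, by omega⟩ _
    · exact Dvd.dvd.mul_right ⟨r + 1, by omega⟩ _
  exact Nat.mul_div_cancel' h

lemma G_mono : Monotone G := monotone_nat_of_le_succ fun n => by
  rcases Nat.even_or_odd n with ⟨r, hr⟩ | ⟨r, hr⟩
  · have h1 := two_G_even r
    have h2 := two_G_odd r
    rw [show n = 2 * r by omega]
    nlinarith
  · have h1 := two_G_even (r + 1)
    have h2 := two_G_odd r
    rw [hr, show 2 * r + 1 + 1 = 2 * (r + 1) by ring]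
    nlinarith

lemma le_G (n : ℕ) : n ≤ G n := by
  rcases Nat.even_or_odd n with ⟨r, hr⟩ | ⟨r, hr⟩
  · have h1 := two_G_even r
    rw [show n = 2 * r by omega]
    rcases Nat.eq_zero_or_pos r with rfl | h
    · simp
    · nlinarith
  · have h2 := two_G_odd r
    rw [hr]
    nlinarith

/-- discrete antiderivative -/
def g (J : ℕ) (N : ℤ) : ℤ := J * (2 * N + 11 - 3 * (J : ℤ) ^ 2)

lemma g_spec (J : ℕ) (N : ℤ) (h : (G (2 * J + 1) : ℤ) ≤ N) :
    |30 * D G J N - (g J N + g (J + 1) N)| ≤ 22 := by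
  have h1 : G (2 * J) ≤ G (2 * J + 1) := G_mono (by omega)
  have b1 := p_bounds (n := N - G (2 * J)) (by omega)
  have b2 := p_bounds (n := N - G (2 * J + 1)) (by omega)
  have e1 : 2 * (G (2 * J) : ℤ) = J * (3 * J + 1) := by exact_mod_cast two_G_even J
  have e2 : 2 * (G (2 * J + 1) : ℤ) = (J + 1) * (3 * J + 2) := by exact_mod_cast two_G_odd J
  unfold D g
  generalize p (N - G (2 * J)) = x at *
  generalize p (N - G (2 * J + 1)) = y at *
  generalize (G (2 * J) : ℤ) = a at *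
  generalize (G (2 * J + 1) : ℤ) = b at *
  have hb : b = a + 2 * J + 1 := by linarith
  subst hb
  have key : (N - a) ^ 2 + 9 * (N - a) - ((N - (a + 2 * J + 1)) ^ 2 + 9 * (N - (a + 2 * J + 1))) =
      (J * (2 * N + 11 - 3 * (J : ℤ) ^ 2)) +
      (((J + 1 : ℕ) : ℤ) * (2 * N + 11 - 3 * ((J + 1 : ℕ) : ℤ) ^ 2)) := by
    push_cast
    linear_combination (-(2 * (J : ℤ) + 1)) * e1
  rw [abs_le]
  constructor
  · linarith [b1.1, b2.2]
  · linarith [b1.2, b2.1]

lemma g_ge (k : ℕ) (N : ℤ) (hk : 1 ≤ k) (h : 3 * (k : ℤ) * (k + 1) ≤ 2 * N + 8) :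
    2 * N + 8 ≤ g k N := by
  unfold g
  have h1 : (0 : ℤ) ≤ (k : ℤ) - 1 := by omega
  nlinarith [mul_nonneg h1 (sub_nonneg.2 h)]

lemma ineqB (m s P : ℤ) (hm : 21 ≤ m) (hs0 : 0 ≤ s) (hs1 : s ≤ 2 * m)
    (h1 : s ^ 2 + 9 * s + 8 ≤ P) (h2 : P ≤ s ^ 2 + 9 * s + 30) :
    -(3 * m ^ 2 + m + 2 * s + 8 - 22 * (m - 1)) ≤ P - (m ^ 2 + 11 * m + 2 * m * s) ∧
    P - (m ^ 2 + 11 * m + 2 * m * s) ≤ 3 * m ^ 2 + m + 2 * s + 8 - 22 * (m - 1) := by
  have h3 : 0 ≤ m * (m - 21) := mul_nonneg (by omega) (by omega)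
  have h4 : 0 ≤ s * (2 * m - s) := mul_nonneg hs0 (by omega)
  have h5 := sq_nonneg (2 * (s - m) + 11)
  constructor
  · linarith
  · linarith

lemma ineqA (M s : ℤ) (hm : 21 ≤ M) (hs0 : 0 ≤ s) (hs1 : s ≤ M) :
    (M + 1) * (2 * s + 10 - M) ≤ 3 * M ^ 2 + 5 * M + 10 + 2 * s - 22 * M ∧
    -((M + 1) * (2 * s + 10 - M)) ≤ 3 * M ^ 2 + 5 * M + 10 + 2 * s - 22 * M := by
  have h3 : 0 ≤ M * (M - 21) := mul_nonneg (by omega) (by omega)
  have h4 : 0 ≤ M * (2 * M - 13 - s) := mul_nonneg (by omega) (by omega)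
  have h5 : 0 ≤ M * s := mul_nonneg (by omega) hs0
  constructor
  · linarith
  · linarith

lemma big (k : ℕ) (hk1 : 1 ≤ k) (M N : ℕ) (hM0 : 21 ≤ M) (hM1 : G (2 * M) ≤ N)
    (hM2 : N < G (2 * (M + 1))) (hk : k ≤ M) : 0 ≤ cc G (M + 1 - k) k N := by
  rcases Nat.lt_or_ge N (G (2 * M + 1)) with hN | hN
  · -- case B
    obtain ⟨L, hL⟩ : ∃ L, L = M - k := ⟨_, rfl⟩
    have hkL : k + L = M := by omega
    rw [show M + 1 - k = L + 1 by omega, cc_append G L 1 k N, hkL]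
    have hc1 : cc G 1 M N = p (N - G (2 * M)) := by
      simp only [cc]
      unfold D
      rw [p_neg (n := (N : ℤ) - G (2 * M + 1)) (by omega)]
      ring
    rw [hc1]
    have hest := cc_est G g g_spec L k N (fun i hi => by
      have : G (2 * (k + i) + 1) ≤ G (2 * M) := G_mono (by omega)
      exact_mod_cast this.trans hM1)
    rw [abs_le, hkL] at hest
    have hp0 := p_nonneg ((N : ℤ) - G (2 * M))
    rcases Nat.eq_zero_or_pos L with rfl | hL0
    · simp only [cc]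
      simpa using hp0
    have hp := p_bounds (n := (N : ℤ) - G (2 * M)) (by omega)
    generalize p ((N : ℤ) - G (2 * M)) = pp at hp hp0 ⊢
    have hM1' : (G (2 * M) : ℤ) ≤ N := by exact_mod_cast hM1
    have hN' : (N : ℤ) < G (2 * M + 1) := by exact_mod_cast hN
    have e1 : 2 * (G (2 * M) : ℤ) = M * (3 * M + 1) := by exact_mod_cast two_G_even M
    have e2 : 2 * (G (2 * M + 1) : ℤ) = (M + 1) * (3 * M + 2) := by exact_mod_cast two_G_odd M
    have hkM : (k : ℤ) + 1 ≤ M := by omega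
    have hk1' : (1 : ℤ) ≤ k := by exact_mod_cast hk1
    have hgk := g_ge k N hk1 (by
      have h1 : (k : ℤ) * (k + 1) ≤ (M - 1) * M :=
        mul_le_mul (by omega) hkM (by omega) (by omega)
      linarith)
    have hM0' : (21 : ℤ) ≤ M := by exact_mod_cast hM0
    have hLM : (L : ℤ) ≤ (M : ℤ) - 1 := by omega
    generalize (G (2 * M) : ℤ) = a at *
    generalize (G (2 * M + 1) : ℤ) = b at *
    obtain ⟨s, hs⟩ : ∃ s : ℤ, (N : ℤ) = a + s := ⟨N - a, by ring⟩
    have hs0 : 0 ≤ s := by linarith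
    have hs1 : s ≤ 2 * M := by
      have : s < 2 * M + 1 := by linarith
      omega
    rw [show (N : ℤ) - a = s by rw [hs]; ring] at hp
    have e3 : g M N = (M : ℤ) ^ 2 + 11 * M + 2 * M * s := by
      unfold g; rw [hs]; linear_combination (M : ℤ) * e1
    rw [e3] at hest
    obtain ⟨lo, hi⟩ := ineqB M s (30 * pp) hM0' hs0 hs1 hp.1 hp.2
    rcases neg_one_pow_eq_or ℤ L with h | h
    · rw [h] at hest ⊢
      linarith [hest.1]
    · rw [h] at hest ⊢
      linarith [hest.1]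
  · -- case A
    obtain ⟨L, hL⟩ : ∃ L, L = M + 1 - k := ⟨_, rfl⟩
    have hkL : k + L = M + 1 := by omega
    rw [← hL]
    have hest := cc_est G g g_spec L k N (fun i hi => by
      have : G (2 * (k + i) + 1) ≤ G (2 * M + 1) := G_mono (by omega)
      exact_mod_cast this.trans hN)
    rw [abs_le, hkL] at hest
    have hN' : (G (2 * M + 1) : ℤ) ≤ N := by exact_mod_cast hN
    have hM2' : (N : ℤ) < G (2 * (M + 1)) := by exact_mod_cast hM2
    have e1 : 2 * (G (2 * (M + 1)) : ℤ) = (M + 1) * (3 * (M + 1) + 1) := by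
      exact_mod_cast two_G_even (M + 1)
    have e2 : 2 * (G (2 * M + 1) : ℤ) = (M + 1) * (3 * M + 2) := by exact_mod_cast two_G_odd M
    have hkM : (k : ℤ) ≤ M := by exact_mod_cast hk
    have hk1' : (1 : ℤ) ≤ k := by exact_mod_cast hk1
    have hM0' : (21 : ℤ) ≤ M := by exact_mod_cast hM0
    have hgk := g_ge k N hk1 (by
      have h1 : (k : ℤ) * (k + 1) ≤ M * (M + 1) :=
        mul_le_mul hkM (by omega) (by omega) (by omega)
      linarith)
    have hLM : (L : ℤ) ≤ M := by omega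
    generalize (G (2 * (M + 1)) : ℤ) = a at *
    generalize (G (2 * M + 1) : ℤ) = b at *
    obtain ⟨s, hs⟩ : ∃ s : ℤ, (N : ℤ) = b + s := ⟨N - b, by ring⟩
    have hs0 : 0 ≤ s := by linarith
    have hs1 : s ≤ M := by
      have : s < M + 1 := by linarith
      omega
    have e3 : g (M + 1) N = (M + 1) * (2 * s + 10 - M) := by
      unfold g; rw [hs]; push_cast; linear_combination ((M : ℤ) + 1) * e2
    rw [e3] at hest
    obtain ⟨lo, hi⟩ := ineqA M s hM0' hs0 hs1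
    rcases neg_one_pow_eq_or ℤ L with h | h
    · rw [h] at hest
      linarith [hest.1]
    · rw [h] at hest
      linarith [hest.1]

lemma theta_eq (k : ℕ) : theta k = Th G k := rfl

lemma chk_G : ∀ N < G (2 * (20 + 1)), chk G (N : ℤ) 20 0 = true := by
  decide +kernel

/-- For every `k ≥ 1` all coefficients of `F_k` are non-negative. -/
theorem result (k : ℕ) (hk : 1 ≤ k) (N : ℕ) : 0 ≤ coeff N (F k) := by
  unfold F
  rw [theta_eq]
  apply coeff_nonneg_of G le_G G_mono rfl k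
  intro M N hM1 hM2 hkM
  rcases Nat.lt_or_ge M 21 with h | h
  · exact small_of_chk G G_mono 20 chk_G k hk M N (by omega) hM2 hkM
  · exact big k hk M N h hM1 hM2 hkM

end Pool.Agent.Results.MP_418314_co.Nonneg
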